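import Pool.Agent.N440.LB.Stm

/-!
# Project LB, leaf FA: a double integral as a difference of squares of Fourier coefficients
-/

set_option autoImplicit false

namespace Pool.Agent.N887.LB.FA

open MeasureTheory Pool.Agent.N440.LB

open scoped Real

/-- the cosine coefficient -/
noncomputable def cc (a : ℝ → ℝ) (m : ℝ) : ℝ := ∫ θ in (0 : ℝ)..(2 * π), a θ * Real.cos (m * θ)

/-- the sine coefficient -/
noncomputable def ss (a : ℝ → ℝ) (m : ℝ) : ℝ := ∫ θ in (0 : ℝ)..(2 * π), a θ * Real.sin (m * θ)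

section

variable {a : ℝ → ℝ} {C : ℝ}

theorem int_a (ha : Measurable a) (hC : ∀ θ, |a θ| ≤ C) :
    IntervalIntegrable a volume 0 (2 * π) := by
  refine (intervalIntegrable_const (c := C)).mono_fun' ha.aestronglyMeasurable ?_
  exact Filter.Eventually.of_forall fun θ => (Real.norm_eq_abs (a θ)).le.trans (hC θ)

theorem int_cos (ha : Measurable a) (hC : ∀ θ, |a θ| ≤ C) (m : ℝ) :
    IntervalIntegrable (fun θ => a θ * Real.cos (m * θ)) volume 0 (2 * π) :=
  (int_a ha hC).mul_continuousOn (by fun_prop)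

theorem int_sin (ha : Measurable a) (hC : ∀ θ, |a θ| ≤ C) (m : ℝ) :
    IntervalIntegrable (fun θ => a θ * Real.sin (m * θ)) volume 0 (2 * π) :=
  (int_a ha hC).mul_continuousOn (by fun_prop)

theorem comb (ha : Measurable a) (hC : ∀ θ, |a θ| ≤ C) (m l p q r s : ℝ) :
    ∫ θ in (0 : ℝ)..(2 * π), (1 / 2) * (p * (a θ * Real.cos (m * θ)) + q * (a θ * Real.sin (m * θ)) -
      r * (a θ * Real.cos (l * θ)) - s * (a θ * Real.sin (l * θ))) =
    (1 / 2) * (p * cc a m + q * ss a m - r * cc a l - s * ss a l) := by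
  have h1 := (int_cos ha hC m).const_mul p
  have h2 := (int_sin ha hC m).const_mul q
  have h3 := (int_cos ha hC l).const_mul r
  have h4 := (int_sin ha hC l).const_mul s
  rw [intervalIntegral.integral_const_mul, intervalIntegral.integral_sub ((h1.add h2).sub h3) h4,
    intervalIntegral.integral_sub (h1.add h2) h3, intervalIntegral.integral_add h1 h2,
    intervalIntegral.integral_const_mul, intervalIntegral.integral_const_mul,
    intervalIntegral.integral_const_mul, intervalIntegral.integral_const_mul]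
  rfl

theorem norm_sq (ha : Measurable a) (hC : ∀ θ, |a θ| ≤ C) (m : ℝ) :
    ‖∫ θ in (0 : ℝ)..(2 * π), (a θ : ℂ) * Complex.exp (((m * θ : ℝ) : ℂ) * Complex.I)‖ ^ 2 =
      cc a m ^ 2 + ss a m ^ 2 := by
  have h1 : ∀ θ : ℝ, (a θ : ℂ) * Complex.exp (((m * θ : ℝ) : ℂ) * Complex.I) =
      ((a θ * Real.cos (m * θ) : ℝ) : ℂ) + ((a θ * Real.sin (m * θ) : ℝ) : ℂ) * Complex.I := by
    intro θ
    rw [Complex.exp_mul_I, ← Complex.ofReal_cos, ← Complex.ofReal_sin]
    push_cast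
    ring
  simp only [h1]
  have h2 : IntervalIntegrable (fun θ => ((a θ * Real.cos (m * θ) : ℝ) : ℂ)) volume 0 (2 * π) :=
    ⟨(int_cos ha hC m).1.ofReal, (int_cos ha hC m).2.ofReal⟩
  have h3 : IntervalIntegrable (fun θ => ((a θ * Real.sin (m * θ) : ℝ) : ℂ)) volume 0 (2 * π) :=
    ⟨(int_sin ha hC m).1.ofReal, (int_sin ha hC m).2.ofReal⟩
  rw [intervalIntegral.integral_add h2 (h3.mul_const _), intervalIntegral.integral_mul_const,
    intervalIntegral.integral_ofReal, intervalIntegral.integral_ofReal, Complex.sq_norm,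
    Complex.normSq_add_mul_I]
  rfl

theorem trig (A B A' B' : ℝ) : Real.sin (A - A') * Real.sin (B' - B) =
    (1 / 2) * (Real.cos (A' + B') * Real.cos (A + B) + Real.sin (A' + B') * Real.sin (A + B) -
      Real.cos (A' - B') * Real.cos (A - B) - Real.sin (A' - B') * Real.sin (A - B)) := by
  rw [Real.sin_sub, Real.sin_sub, Real.cos_add, Real.cos_add, Real.sin_add, Real.sin_add,
    Real.cos_sub, Real.cos_sub, Real.sin_sub, Real.sin_sub]
  ring

end

theorem t_FA : S_FA := by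
  intro a C k ha hC hk
  obtain ⟨j, rfl⟩ : ∃ j, k = j + 1 := ⟨k - 1, by omega⟩
  have e0 : ((j + 1 : ℕ) : ℝ) = (j : ℝ) + 1 := by push_cast; ring
  have e1 : ((j + 1 + 1 : ℕ) : ℝ) = (j : ℝ) + 2 := by push_cast; ring
  have e2 : ((j + 1 - 1 : ℕ) : ℝ) = (j : ℝ) := by rw [Nat.add_sub_cancel]
  rw [e1, e2, norm_sq ha hC, norm_sq ha hC]
  have hin : ∀ θ' : ℝ, ∫ θ in (0 : ℝ)..(2 * π), Real.sin (((j + 1 : ℕ) : ℝ) * (θ - θ')) * a θ *
      Real.sin (θ' - θ) = (1 / 2) * (Real.cos (((j : ℝ) + 2) * θ') * cc a ((j : ℝ) + 2) +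
        Real.sin (((j : ℝ) + 2) * θ') * ss a ((j : ℝ) + 2) -
        Real.cos ((j : ℝ) * θ') * cc a (j : ℝ) - Real.sin ((j : ℝ) * θ') * ss a (j : ℝ)) := by
    intro θ'
    rw [← comb ha hC]
    refine intervalIntegral.integral_congr fun θ _ => ?_
    have h1 := trig (((j : ℝ) + 1) * θ) θ (((j : ℝ) + 1) * θ') θ'
    have h2 : ((j : ℝ) + 1) * θ - ((j : ℝ) + 1) * θ' = ((j + 1 : ℕ) : ℝ) * (θ - θ') := by
      rw [e0]; ring
    have h3 : ((j : ℝ) + 1) * θ + θ = ((j : ℝ) + 2) * θ := by ring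
    have h4 : ((j : ℝ) + 1) * θ - θ = (j : ℝ) * θ := by ring
    have h5 : ((j : ℝ) + 1) * θ' + θ' = ((j : ℝ) + 2) * θ' := by ring
    have h6 : ((j : ℝ) + 1) * θ' - θ' = (j : ℝ) * θ' := by ring
    rw [h2, h3, h4, h5, h6] at h1
    change Real.sin (((j + 1 : ℕ) : ℝ) * (θ - θ')) * a θ * Real.sin (θ' - θ) = _
    rw [mul_right_comm, h1]
    ring
  simp only [hin]
  have hout : ∀ θ' : ℝ, a θ' * ((1 / 2) * (Real.cos (((j : ℝ) + 2) * θ') * cc a ((j : ℝ) + 2) +
        Real.sin (((j : ℝ) + 2) * θ') * ss a ((j : ℝ) + 2) -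
        Real.cos ((j : ℝ) * θ') * cc a (j : ℝ) - Real.sin ((j : ℝ) * θ') * ss a (j : ℝ))) =
      (1 / 2) * (cc a ((j : ℝ) + 2) * (a θ' * Real.cos (((j : ℝ) + 2) * θ')) +
        ss a ((j : ℝ) + 2) * (a θ' * Real.sin (((j : ℝ) + 2) * θ')) -
        cc a (j : ℝ) * (a θ' * Real.cos ((j : ℝ) * θ')) -
        ss a (j : ℝ) * (a θ' * Real.sin ((j : ℝ) * θ'))) := by
    intro θ'
    ring
  simp only [hout]
  rw [comb ha hC]
  ring

end Pool.Agent.N887.LB.FA
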