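import Pool.Agent.N912.LB.Stm
import Pool.Agent.N492.LC.Core2

/-!
# LB3 (subtask 7075 of helper912): from windows bounded away from zero to all windows, for
completely multiplicative functions of the ideals
-/

set_option autoImplicit false

namespace Pool.Agent.N887.LB

open Finset Filter
open Pool.Agent.N912.LB
open Pool.Agent.N912.LC (TP TW S_LC8)
open Pool.Agent.N492.LC (harm Wb Wb_nonneg le_Wb TP_pos)
open Pool.Agent.W78.GA (Qd)
open Pool.Agent.N912.EP.W78EG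

lemma i1_ne (t c : ℤ) (d n : ℕ) : i1 t c d n ≠ ⊥ := by
  intro h
  have h1 : en t c n ∈ i1 t c d n := Ideal.subset_span (by simp)
  rw [h, Ideal.mem_bot] at h1
  have h2 := congrArg QuadraticAlgebra.im h1
  simp [en] at h2

lemma cmi_norm {R : Type} [CommRing R] {N : ℕ} {F : Ideal R → ℂ} (h : CMI N F) {I : Ideal R}
    (hI : I ≠ ⊥) : ‖F I‖ = 1 := by
  have h1 := h.pow I hI
  have h2 : ‖F I‖ ^ N = 1 := by rw [← norm_pow, h1, norm_one]
  have := h.pos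
  exact (pow_eq_one_iff_of_nonneg (norm_nonneg _) (by omega)).1 h2

lemma term_le {t c : ℤ} {q N : ℕ} [NeZero q] {F₁ F₂ : Ideal (Qd t c) → ℂ} (h₁ : CMI N F₁)
    (h₂ : CMI N F₂) (w : ZMod q → ZMod q → ZMod q → ℂ) (α β γ : ZMod q) (d e n : ℕ) :
    ‖w α β γ * (F₁ (i1 t c d n) * F₂ (i1 t c e n))‖ ≤ Wb w := by
  rw [norm_mul, norm_mul, cmi_norm h₁ (i1_ne t c d n), cmi_norm h₂ (i1_ne t c e n), mul_one,
    mul_one]
  exact le_Wb w α β γ

/-- CORE1B for windows which may contain `0` -/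
lemma core_b (h1 : S_CORE1B) (h8 : S_LC8) : ∀ t c : ℤ, (t = 0 ∨ t = 1) → t ^ 2 < 4 * c →
  IsIntegrallyClosed (Qd t c) → ∀ (N : ℕ) (F₁ F₂ : Ideal (Qd t c) → ℂ),
  CMI N F₁ → CMI N F₂ → Apd N (el F₂) → ∀ q : ℕ, 1 ≤ q →
  ∀ w : ZMod q → ZMod q → ZMod q → ℂ, ∀ (s₁ s₂ s₃ s₄ : ℝ), 0 ≤ s₁ → s₁ < s₂ → s₂ ≤ 1 → 0 ≤ s₃ →
  s₃ < s₄ → s₄ ≤ 1 → ∀ ε : ℝ, 0 < ε → ∃ N₀ : ℕ, ∀ N' : ℕ, N₀ ≤ N' →
    ∑ X ∈ Icc 1 N', 1 / (X : ℝ) ^ 2 * ‖∑ y ∈ TW t c s₁ s₂ s₃ s₄ X,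
      w y.2.2 y.1 y.2.1 * (F₁ (i1 t c y.1 y.2.2) * F₂ (i1 t c y.2.1 y.2.2))‖ ≤
        ε * Real.log N' := by
  classical
  intro t c ht htc hic N F₁ F₂ hg hh hap q hq w s₁ s₂ s₃ s₄ hs1 hs12 hs2 hs3 hs34 hs4 ε hε
  have : NeZero q := ⟨by omega⟩
  obtain ⟨C, hC⟩ := h8 t c ht htc
  obtain ⟨D, hD⟩ : ∃ D : ℝ, D = 2 * (Wb w * |C|) + 1 := ⟨_, rfl⟩
  have hWn := Wb_nonneg w
  have hD0 : 0 < D := by
    rw [hD]
    have : 0 ≤ Wb w * |C| := mul_nonneg hWn (abs_nonneg _)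
    linarith
  -- the cutting parameter
  obtain ⟨δ, hδ0, hδ2, hδ4, hδε⟩ : ∃ δ : ℝ, 0 < δ ∧ δ < s₂ ∧ δ < s₄ ∧ D * Real.sqrt δ ≤ ε / 4 := by
    refine ⟨min (min (s₂ / 2) (s₄ / 2)) ((ε / (4 * D)) ^ 2), ?_, ?_, ?_, ?_⟩
    · refine lt_min (lt_min (by linarith) (by linarith)) (by positivity)
    · refine lt_of_le_of_lt ((min_le_left _ _).trans (min_le_left _ _)) (by linarith)
    · refine lt_of_le_of_lt ((min_le_left _ _).trans (min_le_right _ _)) (by linarith)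
    · have e1 : Real.sqrt (min (min (s₂ / 2) (s₄ / 2)) ((ε / (4 * D)) ^ 2)) ≤ ε / (4 * D) := by
        rw [show ε / (4 * D) = Real.sqrt ((ε / (4 * D)) ^ 2) from
          (Real.sqrt_sq (by positivity)).symm]
        refine Real.sqrt_le_sqrt ?_
        rw [Real.sqrt_sq (by positivity)]
        exact min_le_right _ _
      calc _ ≤ D * (ε / (4 * D)) := mul_le_mul_of_nonneg_left e1 hD0.le
        _ = ε / 4 := by field_simp
  obtain ⟨N₁, hN₁⟩ := h1 t c ht htc hic N F₁ F₂ hg hh hap q hq w (max s₁ δ) s₂ (max s₃ δ) s₄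
    (lt_max_of_lt_right hδ0) (max_lt hs12 hδ2) hs2 (lt_max_of_lt_right hδ0) (max_lt hs34 hδ4) hs4
    (ε / 2) (by positivity)
  refine ⟨max N₁ 3, fun N' hN' => ?_⟩
  have hN3 : 3 ≤ N' := (le_max_right _ _).trans hN'
  have hmain := hN₁ N' ((le_max_left _ _).trans hN')
  have hlog : 1 ≤ Real.log N' := by
    rw [← Real.log_exp 1]
    refine Real.log_le_log (Real.exp_pos _) ?_
    have : (3 : ℝ) ≤ N' := by exact_mod_cast hN3
    have h2 := Real.exp_one_lt_d9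
    linarith
  -- one scale
  have hone : ∀ X ∈ Icc 1 N', 1 / (X : ℝ) ^ 2 * ‖∑ y ∈ TW t c s₁ s₂ s₃ s₄ X,
      w y.2.2 y.1 y.2.1 * (F₁ (i1 t c y.1 y.2.2) * F₂ (i1 t c y.2.1 y.2.2))‖ ≤
      1 / (X : ℝ) ^ 2 * ‖∑ y ∈ TW t c (max s₁ δ) s₂ (max s₃ δ) s₄ X,
        w y.2.2 y.1 y.2.1 * (F₁ (i1 t c y.1 y.2.2) * F₂ (i1 t c y.2.1 y.2.2))‖ +
          D * Real.sqrt δ * (1 / (X : ℝ)) := by
    intro X hX
    rw [mem_Icc] at hX
    have hX0 : (0 : ℝ) < X := by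
      have : 0 < X := by omega
      exact_mod_cast this
    have hsub : TW t c (max s₁ δ) s₂ (max s₃ δ) s₄ X ⊆ TW t c s₁ s₂ s₃ s₄ X := by
      intro y hy
      unfold TW at hy ⊢
      rw [mem_filter] at hy ⊢
      obtain ⟨e0, e1, e2, e3, e4⟩ := hy
      refine ⟨e0, lt_of_le_of_lt ?_ e1, e2, lt_of_le_of_lt ?_ e3, e4⟩
      · exact mul_le_mul_of_nonneg_right (le_max_left _ _) hX0.le
      · exact mul_le_mul_of_nonneg_right (le_max_left _ _) hX0.le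
    have hcard : ∀ (P : ℕ × ℕ × ℕ → ℕ), (∀ m : ℕ, 1 ≤ m → m ≤ X →
        (((TP t c X).filter (fun y => P y ≤ m)).card : ℝ) ≤ C * Real.sqrt (m * X)) →
        (∀ y ∈ TP t c X, 1 ≤ P y) →
        (((TP t c X).filter (fun y => (P y : ℝ) ≤ δ * X)).card : ℝ) ≤ |C| * (Real.sqrt δ * X) := by
      intro P hP hP1
      rcases Nat.eq_zero_or_pos ⌊δ * X⌋₊ with h0 | h0
      · have e1 : (TP t c X).filter (fun y => (P y : ℝ) ≤ δ * X) = ∅ := by
          rw [filter_eq_empty_iff]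
          intro y hy hle
          have e2 := hP1 y hy
          have e3 : P y ≤ ⌊δ * X⌋₊ := Nat.le_floor hle
          omega
        rw [e1, card_empty, Nat.cast_zero]
        positivity
      · have e1 : ⌊δ * X⌋₊ ≤ X := by
          have : δ * X ≤ X := by
            have : δ ≤ 1 := by linarith
            nlinarith
          exact (Nat.floor_le_floor this).trans (Nat.floor_natCast X).le
        have e2 := hP _ h0 e1
        have e3 : (TP t c X).filter (fun y => (P y : ℝ) ≤ δ * X) =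
            (TP t c X).filter (fun y => P y ≤ ⌊δ * X⌋₊) := by
          refine filter_congr fun y _ => ?_
          rw [Nat.le_floor_iff (by positivity)]
        rw [e3]
        refine e2.trans ?_
        have e4 : Real.sqrt (⌊δ * X⌋₊ * X) ≤ Real.sqrt δ * X := by
          have e5 : Real.sqrt δ * X = Real.sqrt (δ * X * X) := by
            rw [mul_assoc, Real.sqrt_mul hδ0.le, Real.sqrt_mul_self hX0.le]
          rw [e5]
          refine Real.sqrt_le_sqrt ?_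
          exact mul_le_mul_of_nonneg_right (Nat.floor_le (by positivity)) hX0.le
        exact mul_le_mul (le_abs_self C) e4 (Real.sqrt_nonneg _) (abs_nonneg _)
    have hc1 := hcard (fun y => y.1) (fun m hm hmX => (hC m X hm hmX).1) (fun y hy => (TP_pos hy).1)
    have hc2 := hcard (fun y => y.2.1) (fun m hm hmX => (hC m X hm hmX).2)
      (fun y hy => (TP_pos hy).2)
    have hsd : TW t c s₁ s₂ s₃ s₄ X \ TW t c (max s₁ δ) s₂ (max s₃ δ) s₄ X ⊆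
        (TP t c X).filter (fun y => (y.1 : ℝ) ≤ δ * X) ∪
        (TP t c X).filter (fun y => (y.2.1 : ℝ) ≤ δ * X) := by
      intro y hy
      rw [Finset.mem_sdiff] at hy
      obtain ⟨hy1, hy2⟩ := hy
      unfold TW at hy1 hy2
      rw [mem_filter] at hy1 hy2
      obtain ⟨e0, e1, e2, e3, e4⟩ := hy1
      rw [mem_union, mem_filter, mem_filter]
      by_contra hcon
      push Not at hcon
      apply hy2
      refine ⟨e0, ?_, e2, ?_, e4⟩
      · rw [max_mul_of_nonneg _ _ hX0.le]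
        exact max_lt e1 (hcon.1 e0)
      · rw [max_mul_of_nonneg _ _ hX0.le]
        exact max_lt e3 (hcon.2 e0)
    have hrest : ‖∑ y ∈ TW t c s₁ s₂ s₃ s₄ X \ TW t c (max s₁ δ) s₂ (max s₃ δ) s₄ X,
        w y.2.2 y.1 y.2.1 * (F₁ (i1 t c y.1 y.2.2) * F₂ (i1 t c y.2.1 y.2.2))‖ ≤
          D * Real.sqrt δ * X := by
      have e1 : ∀ y ∈ TW t c s₁ s₂ s₃ s₄ X \ TW t c (max s₁ δ) s₂ (max s₃ δ) s₄ X,
          ‖w y.2.2 y.1 y.2.1 * (F₁ (i1 t c y.1 y.2.2) * F₂ (i1 t c y.2.1 y.2.2))‖ ≤ Wb w :=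
        fun y _ => term_le hg hh w _ _ _ _ _ _
      refine (norm_sum_le_of_le _ e1).trans ?_
      rw [sum_const, nsmul_eq_mul]
      have e2 : ((TW t c s₁ s₂ s₃ s₄ X \ TW t c (max s₁ δ) s₂ (max s₃ δ) s₄ X).card : ℝ) ≤
          |C| * (Real.sqrt δ * X) + |C| * (Real.sqrt δ * X) := by
        refine le_trans ?_ (add_le_add hc1 hc2)
        exact_mod_cast (card_le_card hsd).trans (card_union_le _ _)
      refine (mul_le_mul_of_nonneg_right e2 hWn).trans ?_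
      have e3 : 0 ≤ Real.sqrt δ * X := by positivity
      rw [hD]
      nlinarith
    rw [← sum_sdiff hsub]
    have e1 : (0 : ℝ) ≤ 1 / (X : ℝ) ^ 2 := by positivity
    calc _ ≤ 1 / (X : ℝ) ^ 2 * (D * Real.sqrt δ * X + ‖∑ y ∈ TW t c (max s₁ δ) s₂ (max s₃ δ) s₄ X,
        w y.2.2 y.1 y.2.1 * (F₁ (i1 t c y.1 y.2.2) * F₂ (i1 t c y.2.1 y.2.2))‖) :=
          mul_le_mul_of_nonneg_left ((norm_add_le _ _).trans (add_le_add hrest le_rfl)) e1
      _ = _ := by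
        field_simp
        ring
  refine (sum_le_sum hone).trans ?_
  rw [sum_add_distrib, ← mul_sum]
  have h3 := harm N' (by omega)
  have h4 : D * Real.sqrt δ * ∑ X ∈ Icc 1 N', 1 / (X : ℝ) ≤ ε / 4 * (1 + Real.log N') := by
    have h5 : (0 : ℝ) ≤ ∑ X ∈ Icc 1 N', 1 / (X : ℝ) := sum_nonneg fun _ _ => by positivity
    exact mul_le_mul hδε h3 h5 (by positivity)
  nlinarith

lemma TP_swap {t c : ℤ} {X : ℝ} {y : ℕ × ℕ × ℕ} (hy : y ∈ TP t c X) :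
    (y.2.1, y.1, y.2.2) ∈ TP t c X := by
  unfold TP at hy ⊢
  rw [mem_filter, mem_product, mem_product] at hy ⊢
  obtain ⟨⟨h1, h2, h3⟩, h4, h5⟩ := hy
  refine ⟨⟨h2, h1, h3⟩, ?_, h5⟩
  simp only
  rw [← h4, mul_comm]

lemma TW_swap {t c : ℤ} {s₁ s₂ s₃ s₄ X : ℝ} {y : ℕ × ℕ × ℕ} (hy : y ∈ TW t c s₁ s₂ s₃ s₄ X) :
    (y.2.1, y.1, y.2.2) ∈ TW t c s₃ s₄ s₁ s₂ X := by
  unfold TW at hy ⊢
  rw [mem_filter] at hy ⊢
  obtain ⟨h0, h1, h2, h3, h4⟩ := hy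
  exact ⟨TP_swap h0, h3, h4, h1, h2⟩

theorem core2b (h1 : S_CORE1B) (h8 : Pool.Agent.N912.LC.S_LC8) : S_CORE2B := by
  intro t c ht htc hic N F₁ F₂ hg hh hap q hq w s₁ s₂ s₃ s₄ hs1 hs12 hs2 hs3 hs34 hs4 ε hε
  rcases hap with hap | hap
  · obtain ⟨N₀, hN₀⟩ := core_b h1 h8 t c ht htc hic N F₂ F₁ hh hg hap q hq
      (fun α β γ => w α γ β) s₃ s₄ s₁ s₂ hs3 hs34 hs4 hs1 hs12 hs2 ε hε
    refine ⟨N₀, fun N' hN' => le_trans (le_of_eq ?_) (hN₀ N' hN')⟩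
    refine sum_congr rfl fun X _ => ?_
    congr 2
    refine sum_nbij' (fun y => (y.2.1, y.1, y.2.2)) (fun y => (y.2.1, y.1, y.2.2))
      (fun y hy => TW_swap hy) (fun y hy => TW_swap hy) (fun y _ => rfl) (fun y _ => rfl) ?_
    rintro ⟨d, e, n⟩ _
    simp only
    ring
  · exact core_b h1 h8 t c ht htc hic N F₁ F₂ hg hh hap q hq w s₁ s₂ s₃ s₄ hs1 hs12 hs2 hs3 hs34
      hs4 ε hε

end Pool.Agent.N887.LB
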